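import Pool.Agent.R407.Cov.Main

/-!
For every `k ≥ 1` and all large `s`, a `k`-graph with matching number `s` and covering number
`s * k` has at most `(s * k + k - 1).choose k` edges.
-/

namespace Pool.Agent.Results.MP_e8b69e_co.CoveringNumber

open Finset

/-- The matching number of a family of subsets of an `n`-element set: the largest number of
pairwise disjoint members of the family. -/
noncomputable def matchingNumber {n : ℕ} (F : Finset (Finset (Fin n))) : ℕ :=
  sSup {m : ℕ | ∃ M : Finset (Finset (Fin n)), M ⊆ F ∧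
    (∀ a ∈ M, ∀ b ∈ M, a ≠ b → Disjoint a b) ∧ M.card = m}

/-- The covering number of a family of nonempty subsets of an `n`-element set: the least size of
a set of points that meets every member of the family. -/
noncomputable def coveringNumber {n : ℕ} (F : Finset (Finset (Fin n))) : ℕ :=
  sInf {m : ℕ | ∃ Y : Finset (Fin n), (∀ e ∈ F, (e ∩ Y).Nonempty) ∧ Y.card = m}

theorem exists_matching {n : ℕ} (F : Finset (Finset (Fin n))) :
    (∃ M : Finset (Finset (Fin n)), M ⊆ F ∧ (∀ a ∈ M, ∀ b ∈ M, a ≠ b → Disjoint a b) ∧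
      M.card = matchingNumber F) ∧
    ∀ M : Finset (Finset (Fin n)), M ⊆ F → (∀ a ∈ M, ∀ b ∈ M, a ≠ b → Disjoint a b) →
      M.card ≤ matchingNumber F := by
  have hbdd : BddAbove {m : ℕ | ∃ M : Finset (Finset (Fin n)), M ⊆ F ∧
      (∀ a ∈ M, ∀ b ∈ M, a ≠ b → Disjoint a b) ∧ M.card = m} := by
    refine ⟨F.card, ?_⟩
    rintro m ⟨M, hM, -, rfl⟩
    exact Finset.card_le_card hM
  constructor
  · have hne : {m : ℕ | ∃ M : Finset (Finset (Fin n)), M ⊆ F ∧
        (∀ a ∈ M, ∀ b ∈ M, a ≠ b → Disjoint a b) ∧ M.card = m}.Nonempty :=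
      ⟨0, ∅, Finset.empty_subset _, by simp, by simp⟩
    exact Nat.sSup_mem hne hbdd
  · intro M hM hd
    exact le_csSup hbdd ⟨M, hM, hd, rfl⟩

/-- For every `k ≥ 1` there is `s₀` such that for every `s > s₀`, every `k`-graph `F` on `[n]`
(for any `n`) with matching number `s` and covering number `s * k` has at most
`(s * k + k - 1).choose k` edges. -/
theorem result : ∀ k : ℕ, 1 ≤ k → ∃ s₀ : ℕ, ∀ s : ℕ, s₀ < s →
    ∀ (n : ℕ) (F : Finset (Finset (Fin n))), (∀ e ∈ F, e.card = k) →
      matchingNumber F = s → coveringNumber F = s * k →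
      F.card ≤ (s * k + k - 1).choose k := by
  intro k hk
  refine ⟨R407.Cov.s0 k, fun s hs n F hF hν hτ => ?_⟩
  obtain ⟨⟨M, hMF, hMd, hMc⟩, hmax⟩ := exists_matching F
  rw [hν] at hMc hmax
  rcases Nat.lt_or_ge 1 k with hk2 | hk1
  · -- the main case
    have hcov : ∀ Y : Finset (Fin n), (∀ e ∈ F, ¬ Disjoint e Y) → s * k ≤ Y.card := by
      intro Y hY
      rw [← hτ]
      exact Nat.sInf_le ⟨Y, fun e he => Finset.not_disjoint_iff_nonempty_inter.1 (hY e he), rfl⟩
    have hyp : R407.Cov.Hyp k s F M := ⟨hk, hF, hMF, hMd, hMc, hmax, hcov⟩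
    by_contra hcon
    push Not at hcon
    obtain ⟨V₀, hV₀, hFV⟩ := hyp.main hk2 hs hcon.le
    rw [hFV, Finset.card_powersetCard, hV₀] at hcon
    exact lt_irrefl _ hcon
  · -- the case of singletons
    have hk' : k = 1 := by omega
    subst hk'
    have h1 := hmax F (Finset.Subset.refl _) (by
      intro a ha b hb hab
      obtain ⟨x, rfl⟩ := Finset.card_eq_one.1 (hF a ha)
      obtain ⟨y, rfl⟩ := Finset.card_eq_one.1 (hF b hb)
      rw [Finset.disjoint_singleton]
      rintro rfl
      exact hab rfl)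
    simpa using h1

end Pool.Agent.Results.MP_e8b69e_co.CoveringNumber
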